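import Mathlib
import Pool.Agent.Helper11.GN.Types
import Pool.Agent.Helper10.HodgeTypes

/-!
# Specialisations of finite families of varieties: definitions
-/

universe u v w u' w'

open CategoryTheory TensorProduct

namespace Pool.Agent.Helper11.BD

open Pool.Agent.Helper10 SmProjVar Pool.Agent.Helper11.Obs

section

variable {k : Type u} [Field k] {k' : Type u'} [Field k'] {K : Type v} [Field K]
  (W : CohomologyData.{u, v, w} k K) (W' : CohomologyData.{u', v, w'} k' K)

/-- The varieties `V' c` over `k'` are specialisations of the varieties `V c` over `k`, for two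
cohomology theories with the same field of coefficients: the `φ c : H(V c) → H'(V' c)` are
isomorphisms of graded algebras which commute with the traces, and for every cycle `z` on a
product `V (c 0) × ⋯ × V (c (b - 1))` there is a cycle `z'` on `V' (c 0) × ⋯ × V' (c (b - 1))` of the
same codimension with the same class, if we identify the cohomology of the products by means of the
`φ c` and the Künneth formula: `⟨z', φ v₁ × … × φ v_b⟩ = ⟨z, v₁ × … × v_b⟩`.
(Example: the `V c` have good reduction `V' c`.) -/
structure AreSpecializations {P : ℕ} (V : Fin P → SmProjVar k) (V' : Fin P → SmProjVar k')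
    (φ : ∀ c, W.H (V c) → W'.H (V' c)) : Prop where
  dim_eq : ∀ c, (V' c).dim = (V c).dim
  bijective : ∀ c, Function.Bijective (φ c)
  map_add : ∀ c x y, φ c (x + y) = φ c x + φ c y
  map_smul : ∀ c (a : K) (x : W.H (V c)), φ c (a • x) = a • φ c x
  map_one : ∀ c, φ c 1 = 1
  map_mul : ∀ c x y, φ c (x * y) = φ c x * φ c y
  map_mem : ∀ c (i : ℕ) (x : W.H (V c)), x ∈ W.gr (V c) i → φ c x ∈ W'.gr (V' c) i
  tr : ∀ c x, W'.tr (V' c) (φ c x) = W.tr (V c) x
  cycle : ∀ (b j : ℕ) (c : Fin b → Fin P) (z : (prodVar (pt k) fun i => V (c i)).Z j),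
    ∃ z' : (prodVar (pt k') fun i => V' (c i)).Z j, ∀ x : ∀ i, W.H (V (c i)),
      W'.pairing (prodVar (pt k') fun i => V' (c i))
        (W'.cy (prodVar (pt k') fun i => V' (c i)) j z') (extProd W' 1 fun i => φ (c i) (x i)) =
      W.pairing (prodVar (pt k) fun i => V (c i))
        (W.cy (prodVar (pt k) fun i => V (c i)) j z) (extProd W 1 x)

/-- The variety `V` with the divisor `d` is polarised at the specialisation `V'` (by means of
`φ : H(V) → H'(V')`): the hard Lefschetz theorem holds for `(V, d)`, `φ` maps the class of `d` to the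
class of some divisor `d'` on `V'`, and the standard conjecture of Hodge type holds for `V' × V'`
with respect to some divisor with class `p^* d' + q^* d'`, where `p` and `q` are the projections. -/
def IsPolarizedAt {V : SmProjVar k} (d : V.Z 1) {V' : SmProjVar k'} (φ : W.H V → W'.H V') : Prop :=
  HardLefschetz W V d ∧ ∃ (d' : V'.Z 1) (e : (V'.prod V').Z 1), φ (W.cy V 1 d) = W'.cy V' 1 d' ∧
    W'.cy (V'.prod V') 1 e =
      W'.pull (fst V' V') (W'.cy V' 1 d') + W'.pull (snd V' V') (W'.cy V' 1 d') ∧
    W'.HodgeType (V'.prod V') e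

/-- Positivity at the specialisation `V'` of `V` (by means of `φ : H(V) → H'(V')`) for the subspace
`E` of `H(V)`: for some map `s` induced by an algebraic correspondence which stabilises `E`, the
bilinear form `(a₁ ⊗ b₁, a₂ ⊗ b₂) ↦ ⟨a₁, s a₂⟩ ⟨b₁, s b₂⟩` does not represent zero on the classes in
`φ E ⊗ φ E` which are combinations, with coefficients in the subfield `F` of `K`, of classes of
algebraic cycles on `V' × V'`. (Example: `E = H¹ ⊕ H ^ (2 dim - 1)` for an abelian variety, `s` given
by a power of a polarisation, and `F = ℚ`: this is the positivity of the Rosati involution.) -/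
def IsPositiveAt (F : Subfield K) {V : SmProjVar k} (E : Submodule K (W.H V))
    {V' : SmProjVar k'} (φ : W.H V → W'.H V') : Prop :=
  ∃ s : W.H V → W.H V, W.IsAlgebraicMap V V s ∧ (∀ y ∈ E, s y ∈ E) ∧
    ∀ (m : ℕ) (a b : Fin m → W.H V), (∀ i, a i ∈ E ∧ b i ∈ E) →
      (∑ i, W'.pull (fst V' V') (φ (a i)) * W'.pull (snd V' V') (φ (b i))) ∈
        cycleSpan W' F (V'.prod V') →
      (∑ i, ∑ j, W.pairing V (a i) (s (a j)) * W.pairing V (b i) (s (b j))) = 0 →
      (∑ i, W'.pull (fst V' V') (φ (a i)) * W'.pull (snd V' V') (φ (b i))) = 0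

/-- The weaker condition which we need: for every totally isotropic subspace `G` of `E` which is
stable under the maps induced by algebraic correspondences which stabilise `E`, the only
combination, with coefficients in `F`, of classes of algebraic cycles on `V' × V'` which lies in
`φ G ⊗ φ E` is zero. -/
def HasNoIsotropicClass (F : Subfield K) {V : SmProjVar k} (E : Submodule K (W.H V))
    {V' : SmProjVar k'} (φ : W.H V → W'.H V') : Prop :=
  ∀ G ≤ E, (∀ u : W.H V → W.H V, W.IsAlgebraicMap V V u → (∀ y ∈ E, u y ∈ E) →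
      ∀ y ∈ G, u y ∈ G) → IsTotallyIsotropic W V G →
    ∀ (m : ℕ) (a b : Fin m → W.H V), (∀ i, a i ∈ G ∧ b i ∈ E) →
      (∑ i, W'.pull (fst V' V') (φ (a i)) * W'.pull (snd V' V') (φ (b i))) ∈
        cycleSpan W' F (V'.prod V') →
      (∑ i, W'.pull (fst V' V') (φ (a i)) * W'.pull (snd V' V') (φ (b i))) = 0

end

end Pool.Agent.Helper11.BD
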