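import Mathlib
import Pool.Agent.Helper11.GP.Types
import Pool.Agent.Helper11.GN.L1
import Pool.Agent.Helper11.GN.L3

/-!
# Slots of classes on products: subspaces of even or odd classes
-/

universe u v w

open CategoryTheory Finset

namespace Pool.Agent.Helper11.BD

open Pool.Agent.Helper10 hiding IsAlgAut parityPart
open SmProjVar Pool.Agent.Helper10.GIT
open Pool.Agent.Helper11.Obs (parityPart)

variable {k : Type u} [Field k] {K : Type v} [Field K] [CharZero K]
  (W : WeilCohomology.{u, v, w} k K) {F : Subfield K} {A B : SmProjVar k}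

namespace Sl

lemma pull_add' {X Y : SmProjVar k} (f : X.toOver ⟶ Y.toOver) (x y : W.H Y) :
    W.pull f (x + y) = W.pull f x + W.pull f y := map_add (W.pullA f) x y

lemma pull_smul' {X Y : SmProjVar k} (f : X.toOver ⟶ Y.toOver) (c : K) (x : W.H Y) :
    W.pull f (c • x) = c • W.pull f x := map_smul (W.pullA f) c x

lemma pull_zero'' {X Y : SmProjVar k} (f : X.toOver ⟶ Y.toOver) :
    W.pull f 0 = 0 := map_zero (W.pullA f)

/-- the parts of even and of odd degree -/
lemma parityPart_le_par (X : SmProjVar k) (p : ℕ) :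
    parityPart W.toCohomologyData X p ≤ par W (decide (Odd p)) X := by
  unfold Obs.parityPart
  refine iSup₂_le fun i hi => ?_
  have h1 : decide (Odd p) = decide (Odd i) := by
    have h2 : Even (i + p) := hi
    rw [Nat.even_add] at h2
    rw [decide_eq_decide, ← Nat.not_even_iff_odd, ← Nat.not_even_iff_odd, h2]
  rw [h1]
  exact gr_le_par W X i

/-- the even and the odd component of a class which is orthogonal to a subspace of even or odd
classes -/
lemma orth_parity {p : Bool} {G : Submodule K (W.H B)} (hG : G ≤ par W p B) {v₀ v₁ : W.H B}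
    (hv₀ : v₀ ∈ W.evK B) (hv₁ : v₁ ∈ W.odK B) (hv : ∀ g ∈ G, W.trL B (g * (v₀ + v₁)) = 0) :
    (∀ g ∈ G, W.trL B (g * v₀) = 0) ∧ ∀ g ∈ G, W.trL B (g * v₁) = 0 := by
  rw [← forall₂_and]
  intro g hg
  have h1 := hv g hg
  rw [mul_add, map_add] at h1
  cases p with
  | false =>
    have h2 : W.trL B (g * v₁) = 0 := trL_odK W B (W.evK_mul_odK _ _ _ (hG hg) hv₁)
    rw [h2, add_zero] at h1
    exact ⟨h1, h2⟩
  | true =>
    have h2 : W.trL B (g * v₀) = 0 := trL_odK W B (odK_mul_evK W _ (hG hg) hv₀)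
    rw [h2, zero_add] at h1
    exact ⟨h2, h1⟩

/-- moving a class past even or odd classes -/
lemma exists_sign (p : Bool) (y : W.H B) :
    ∃ y' : W.H B, ∀ {T : SmProjVar k} (f : T.toOver ⟶ B.toOver) (x : W.H T), x ∈ par W p T →
      x * W.pull f y = W.pull f y' * x ∧ W.pull f y * x = x * W.pull f y' := by
  obtain ⟨v₀, hv₀, v₁, hv₁, rfl⟩ := exists_parity W B y
  cases p with
  | false =>
    exact ⟨v₀ + v₁, fun {T} f x hx => ⟨W.evK_comm _ _ _ hx, (W.evK_comm _ _ _ hx).symm⟩⟩
  | true =>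
    refine ⟨v₀ - v₁, fun {T} f x hx => ?_⟩
    have h1 : W.pull f (v₀ + v₁) = W.pullA f v₀ + W.pullA f v₁ := map_add (W.pullA f) _ _
    have h2 : W.pull f (v₀ - v₁) = W.pullA f v₀ - W.pullA f v₁ := map_sub (W.pullA f) _ _
    have h3 := W.evK_comm _ _ x (W.pull_evK f _ hv₀)
    have h4 := W.odK_anti _ x _ hx (W.pull_odK f _ hv₁)
    refine ⟨?_, ?_⟩
    · rw [h1, h2, mul_add, sub_mul, ← h3, h4, sub_eq_add_neg]
    · rw [h1, h2, add_mul, mul_sub, h3, h4, sub_neg_eq_add]

/-- moving a class orthogonal to `G` past odd classes -/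
lemma exists_twist_par {p : Bool} {G : Submodule K (W.H B)} (hG : G ≤ par W p B) {v : W.H B}
    (hv : ∀ g ∈ G, W.trL B (g * v) = 0) :
    ∃ v' : W.H B, (∀ g ∈ G, W.trL B (g * v') = 0) ∧
      ∀ {T : SmProjVar k} (f : T.toOver ⟶ B.toOver) (y : W.H T), y ∈ W.odK T →
        y * W.pull f v = W.pull f v' * y := by
  obtain ⟨v₀, hv₀, v₁, hv₁, rfl⟩ := exists_parity W B v
  obtain ⟨h0, h1⟩ := orth_parity W hG hv₀ hv₁ hv
  refine ⟨v₀ - v₁, fun g hg => ?_, fun {T} f y hy => ?_⟩
  · rw [mul_sub, map_sub, h0 g hg, h1 g hg, sub_zero]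
  · have h1 : W.pull f (v₀ + v₁) = W.pullA f v₀ + W.pullA f v₁ := map_add (W.pullA f) _ _
    have h2 : W.pull f (v₀ - v₁) = W.pullA f v₀ - W.pullA f v₁ := map_sub (W.pullA f) _ _
    rw [h1, h2, mul_add, sub_mul, ← W.evK_comm _ _ y (W.pull_evK f _ hv₀),
      W.odK_anti _ y _ hy (W.pull_odK f _ hv₁), sub_eq_add_neg]

/-- a class on `A × B` which is orthogonal to all `a × v` with `v` orthogonal to the subspace
`G` of even or odd classes in `H(B)` is a sum of classes `a × g` with `g ∈ G` -/
theorem mem_span_slot_par' {z : W.H (A.prod B)} {G : Submodule K (W.H B)} {p : Bool}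
    (hG : G ≤ par W p B)
    (h : ∀ (a : W.H A) (v : W.H B), (∀ g ∈ G, W.trL B (g * v) = 0) →
      W.trL (A.prod B) (z * (W.pull (fst A B) a * W.pull (snd A B) v)) = 0) :
    z ∈ Submodule.span K {t | ∃ a, ∃ g ∈ G, t = W.pull (fst A B) a * W.pull (snd A B) g} := by
  obtain ⟨r, a, g, hexp, hdual⟩ := exists_dual_expansion W A
  obtain ⟨b, rfl⟩ := exists_slot_expansion W hexp z
  have hb : ∀ t, b t ∈ G := by
    intro t
    refine mem_of_orth W fun v hv => ?_
    have h1 := h (a t) v hv
    rw [sum_mul, map_sum] at h1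
    have h2 : ∀ s, W.trL (A.prod B) (W.pull (snd A B) (b s) * W.pull (fst A B) (g s) *
        (W.pull (fst A B) (a t) * W.pull (snd A B) v)) =
          if s = t then W.trL B (b s * v) else 0 := by
      intro s
      have h3 : W.pull (fst A B) (g s) * W.pull (fst A B) (a t) = W.pull (fst A B) (g s * a t) :=
        ((W.pullA (fst A B)).map_mul _ _).symm
      rw [← mul_assoc, mul_assoc (W.pull (snd A B) (b s)), h3, trL_snd_fst_snd, hdual]
      split_ifs <;> simp
    rw [sum_congr rfl fun s _ => h2 s, sum_ite_eq' univ t, if_pos (mem_univ _)] at h1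
    exact h1
  refine Submodule.sum_mem _ fun s _ => ?_
  obtain ⟨y', hy'⟩ := exists_sign W p (g s)
  rw [(hy' (fst A B) (W.pull (snd A B) (b s)) (pull_par W _ (hG (hb s)))).1]
  exact Submodule.subset_span ⟨y', b s, hb s, rfl⟩

theorem mem_span_slot_par {z : W.H (A.prod B)} {G : Submodule K (W.H B)} {p : ℕ}
    (hG : G ≤ parityPart W.toCohomologyData B p)
    (h : ∀ (a : W.H A) (v : W.H B), (∀ g ∈ G, W.trL B (g * v) = 0) →
      W.trL (A.prod B) (z * (W.pull (fst A B) a * W.pull (snd A B) v)) = 0) :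
    z ∈ Submodule.span K {t | ∃ a, ∃ g ∈ G, t = W.pull (fst A B) a * W.pull (snd A B) g} :=
  mem_span_slot_par' W (hG.trans (parityPart_le_par W B p)) h

/-- a class on `A × B` which is orthogonal to all `v × x` with `v` orthogonal to the subspace
`G` of even or odd classes in `H(A)` is a sum of classes `g × x` with `g ∈ G` -/
theorem exists_sum_fst_par {γ : W.H (A.prod B)} {G : Submodule K (W.H A)} {p : Bool}
    (hG : G ≤ par W p A)
    (h : ∀ (v : W.H A) (x : W.H B), (∀ g ∈ G, W.trL A (g * v) = 0) →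
      W.trL (A.prod B) (γ * (W.pull (fst A B) v * W.pull (snd A B) x)) = 0) :
    ∃ (m : ℕ) (g : Fin m → W.H A) (x : Fin m → W.H B), (∀ i, g i ∈ G) ∧
      γ = ∑ i, W.pull (fst A B) (g i) * W.pull (snd A B) (x i) := by
  obtain ⟨r, a, g, hexp, hdual⟩ := exists_dual_expansion W B
  -- the other order of the slots
  have h' : ∀ (v : W.H A) (x : W.H B), (∀ g ∈ G, W.trL A (g * v) = 0) →
      W.trL (A.prod B) (γ * (W.pull (snd A B) x * W.pull (fst A B) v)) = 0 := by
    intro v x hv
    obtain ⟨v₀, hv₀, v₁, hv₁, rfl⟩ := exists_parity W A v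
    obtain ⟨h0, h1⟩ := orth_parity W hG hv₀ hv₁ hv
    obtain ⟨x', hx'⟩ := exists_sign W true x
    have h5 : W.pull (snd A B) x * W.pull (fst A B) v₁ =
        W.pull (fst A B) v₁ * W.pull (snd A B) x' :=
      (hx' (snd A B) _ (W.pull_odK (fst A B) _ hv₁)).2
    rw [pull_add', mul_add, mul_add, map_add, h5]
    have h2 : W.pull (snd A B) x * W.pull (fst A B) v₀ = W.pull (fst A B) v₀ * W.pull (snd A B) x :=
      (W.evK_comm _ _ _ (W.pull_evK (fst A B) _ hv₀)).symm
    rw [h2, h v₀ x h0]
    have h3 := h v₁ x' h1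
    rw [zero_add]
    exact h3
  obtain ⟨b, rfl⟩ := exists_slot_expansion' W hexp γ
  refine ⟨r, b, g, fun t => ?_, rfl⟩
  refine mem_of_orth W fun v hv => ?_
  have h1 := h' v (a t) hv
  rw [sum_mul, map_sum] at h1
  have h2 : ∀ s, W.trL (A.prod B) (W.pull (fst A B) (b s) * W.pull (snd A B) (g s) *
      (W.pull (snd A B) (a t) * W.pull (fst A B) v)) =
        if s = t then W.trL A (b s * v) else 0 := by
    intro s
    have h3 : W.pull (snd A B) (g s) * W.pull (snd A B) (a t) = W.pull (snd A B) (g s * a t) :=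
      ((W.pullA (snd A B)).map_mul _ _).symm
    rw [← mul_assoc, mul_assoc (W.pull (fst A B) (b s)), h3, trL_fst_snd_fst, hdual]
    split_ifs <;> simp
  rw [sum_congr rfl fun s _ => h2 s, sum_ite_eq' univ t, if_pos (mem_univ _)] at h1
  exact h1

/-- a class with a slot in `G` is orthogonal to the products with a slot orthogonal to `G` -/
lemma tr_contract_par {z : W.H (A.prod B)} {p : Bool} {G : Submodule K (W.H B)}
    (hG : G ≤ par W p B)
    (hzG : z ∈ Submodule.span K {t | ∃ a, ∃ g ∈ G, t = W.pull (fst A B) a * W.pull (snd A B) g})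
    {v : W.H B} (hv : ∀ g ∈ G, W.trL B (g * v) = 0) (α : W.H A) :
    W.trL (A.prod B) (z * (W.pull (fst A B) α * W.pull (snd A B) v)) = 0 := by
  obtain ⟨α', hα'⟩ := exists_sign W p α
  induction hzG using Submodule.span_induction with
  | mem z hz =>
    obtain ⟨a, g, hg, rfl⟩ := hz
    have h1 := (hα' (fst A B) _ (pull_par W (snd A B) (hG hg))).1
    have h2 : W.pull (fst A B) a * W.pull (snd A B) g * (W.pull (fst A B) α *
        W.pull (snd A B) v) = W.pull (fst A B) (a * α') * W.pull (snd A B) (g * v) := by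
      rw [mul_assoc, ← mul_assoc (W.pull (snd A B) g), h1, pull_mul', pull_mul']
      simp only [mul_assoc]
    rw [h2, tr_ext, hv g hg, mul_zero]
  | zero => rw [zero_mul, map_zero]
  | add x y _ _ hx hy => rw [add_mul, map_add, hx, hy, add_zero]
  | smul c x _ hx => rw [smul_mul_assoc, map_smul, hx, smul_zero]

end Sl

open Sl

/-- contraction of classes on products -/
theorem exists_contraction_par' {z a : W.H (A.prod B)}
    {G : Submodule K (W.H B)} {p : Bool} (hG : G ≤ par W p B) {u : W.H B → W.H B}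
    (hu : IsMapOver W.toCohomologyData F B u)
    (huG : ∀ g ∈ G, ∀ x, W.pairing B g (u x) = W.pairing B g x)
    (hz : z ∈ cycleSpan W.toCohomologyData F (A.prod B))
    (ha : a ∈ cycleSpan W.toCohomologyData F (A.prod B))
    (hzG : z ∈ Submodule.span K {t | ∃ a, ∃ g ∈ G, t = W.pull (fst A B) a * W.pull (snd A B) g})
    (hza : W.trL (A.prod B) (z * a) ≠ 0) :
    ∃ (m : ℕ) (g x : Fin m → W.H B), (∀ i, g i ∈ G) ∧
      (∑ i, W.pull (fst B B) (g i) * W.pull (snd B B) (u (x i))) ∈
        cycleSpan W.toCohomologyData F (B.prod B) ∧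
      (∑ i, W.pull (fst B B) (g i) * W.pull (snd B B) (u (x i))) ≠ 0 := by
  obtain ⟨δ, hδ, hδe, hδt⟩ := exists_diag W F B
  obtain ⟨γ, hγ, h⟩ := push_mem_cycleSpan (F := F) W (rr A B) (x := W.pullA (fst (A.prod B) B) z *
    W.pullA (qq A B) a) (mul_mem_cycleSpan W _ (pull_mem_cycleSpan W _ hz)
      (pull_mem_cycleSpan W _ ha))
  obtain ⟨m, g, x, hg, hsum⟩ : ∃ (m : ℕ) (g : Fin m → W.H B) (x : Fin m → W.H B),
      (∀ i, g i ∈ G) ∧ γ = ∑ i, W.pull (fst B B) (g i) * W.pull (snd B B) (x i) := by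
    refine exists_sum_fst_par W hG fun v x hv => ?_
    rw [h]
    change W.trL ((A.prod B).prod B) (W.pull (fst (A.prod B) B) z * W.pull (qq A B) a *
      W.pull (rr A B) (W.pull (fst B B) v * W.pull (snd B B) x)) = 0
    rw [pull_rr]
    obtain ⟨v', hv', htw⟩ := exists_twist_par W hG hv
    have hqq : ∀ α β, W.pull (qq A B) (W.pull (fst A B) α * W.pull (snd A B) β) =
        W.pull (fst (A.prod B) B) (W.pull (fst A B) α) * W.pull (snd (A.prod B) B) β := by
      intro α β
      rw [pull_mul', ← W.pull_comp, ← W.pull_comp, ← W.pull_comp]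
      unfold qq
      rw [lift_fst, lift_snd]
    refine prod_induction' W (p := fun a => W.trL ((A.prod B).prod B)
      (W.pull (fst (A.prod B) B) z * W.pull (qq A B) a *
        (W.pull (fst (A.prod B) B) (W.pull (snd A B) v) * W.pull (snd (A.prod B) B) x)) = 0)
        (fun α β => ?_) (fun a b ha hb => ?_) a
    · rw [hqq]
      obtain ⟨β₀, hβ₀, β₁, hβ₁, rfl⟩ := exists_parity W B β
      have key : ∀ (β w : W.H B), (∀ g ∈ G, W.trL B (g * w) = 0) →
          W.pull (snd (A.prod B) B) β * W.pull (fst (A.prod B) B) (W.pull (snd A B) v) =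
            W.pull (fst (A.prod B) B) (W.pull (snd A B) w) * W.pull (snd (A.prod B) B) β →
          W.trL ((A.prod B).prod B) (W.pull (fst (A.prod B) B) z *
            (W.pull (fst (A.prod B) B) (W.pull (fst A B) α) * W.pull (snd (A.prod B) B) β) *
            (W.pull (fst (A.prod B) B) (W.pull (snd A B) v) * W.pull (snd (A.prod B) B) x)) =
              0 := by
        intro β w hw hcomm
        have h1 : W.pull (fst (A.prod B) B) z *
            (W.pull (fst (A.prod B) B) (W.pull (fst A B) α) * W.pull (snd (A.prod B) B) β) *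
            (W.pull (fst (A.prod B) B) (W.pull (snd A B) v) * W.pull (snd (A.prod B) B) x) =
            W.pull (fst (A.prod B) B) (z * (W.pull (fst A B) α * W.pull (snd A B) w)) *
              W.pull (snd (A.prod B) B) (β * x) := by
          rw [pull_mul', pull_mul', pull_mul']
          calc _ = W.pull (fst (A.prod B) B) z * W.pull (fst (A.prod B) B) (W.pull (fst A B) α) *
                (W.pull (snd (A.prod B) B) β *
                  W.pull (fst (A.prod B) B) (W.pull (snd A B) v)) *
                W.pull (snd (A.prod B) B) x := by simp only [mul_assoc]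
            _ = _ := by rw [hcomm]; simp only [mul_assoc]
        rw [h1, tr_ext, tr_contract_par W hG hzG hw, zero_mul]
      have h0 := key β₀ v hv (W.evK_comm _ _ _ (W.pull_evK _ _ hβ₀))
      have h1 := key β₁ v' hv' (by
        rw [← W.pull_comp, ← W.pull_comp]
        exact htw _ _ (W.pull_odK _ _ hβ₁))
      rw [Sl.pull_add', mul_add, mul_add, add_mul, map_add, h0, h1, add_zero]
    · rw [Sl.pull_add', mul_add, add_mul, map_add, ha, hb, add_zero]
  obtain ⟨T, hT1, hT2⟩ := exists_prod_map W (Ro.isMapOver_id W (F := F) B) hu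
  have hTγ : T γ = ∑ i, W.pull (fst B B) (g i) * W.pull (snd B B) (u (x i)) := by
    rw [hsum, map_sum]
    exact sum_congr rfl fun i _ => hT2 _ _
  refine ⟨m, g, x, hg, ?_, ?_⟩
  · rw [← hTγ]
    exact hT1 γ hγ
  · intro h0
    -- the trace against the diagonal
    have h1 := h δ
    have h2 : W.trL ((A.prod B).prod B) (W.pull (fst (A.prod B) B) z * W.pull (qq A B) a *
        W.pull (rr A B) δ) ≠ 0 := by
      rw [tr_mul_rr W hδe hδt, pull_mul', pull_ss_fst, pull_ss_qq]
      exact hza
    apply h2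
    refine h1.symm.trans ?_
    have h3 : W.trL (B.prod B) (δ * γ) = W.trL (B.prod B) (δ * ∑ i, W.pull (fst B B) (g i) *
        W.pull (snd B B) (u (x i))) := by
      rw [hsum, mul_sum, mul_sum, map_sum, map_sum]
      refine sum_congr rfl fun i _ => ?_
      rw [hδt, hδt]
      exact (huG _ (hg i) (x i)).symm
    rw [h0, mul_zero, map_zero] at h3
    rw [← h3]
    congr 1
    exact (W.evK_comm _ _ _ hδe).symm

theorem exists_contraction_par {z a : W.H (A.prod B)}
    {G : Submodule K (W.H B)} {p : ℕ} (hG : G ≤ parityPart W.toCohomologyData B p)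
    {u : W.H B → W.H B} (hu : IsMapOver W.toCohomologyData F B u)
    (huG : ∀ g ∈ G, ∀ x, W.pairing B g (u x) = W.pairing B g x)
    (hz : z ∈ cycleSpan W.toCohomologyData F (A.prod B))
    (ha : a ∈ cycleSpan W.toCohomologyData F (A.prod B))
    (hzG : z ∈ Submodule.span K {t | ∃ a, ∃ g ∈ G, t = W.pull (fst A B) a * W.pull (snd A B) g})
    (hza : W.trL (A.prod B) (z * a) ≠ 0) :
    ∃ (m : ℕ) (g x : Fin m → W.H B), (∀ i, g i ∈ G) ∧
      (∑ i, W.pull (fst B B) (g i) * W.pull (snd B B) (u (x i))) ∈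
        cycleSpan W.toCohomologyData F (B.prod B) ∧
      (∑ i, W.pull (fst B B) (g i) * W.pull (snd B B) (u (x i))) ≠ 0 :=
  exists_contraction_par' W (hG.trans (parityPart_le_par W B p)) hu huG hz ha hzG hza

/-- positivity of pieces -/
theorem hasNoIsotropicClass_of_isPositiveAt {k' : Type*} [Field k']
    (W : CohomologyData.{u, v, w} k K) (W' : CohomologyData k' K) {V : SmProjVar k}
    {V' : SmProjVar k'} {E : Submodule K (W.H V)} {φ : W.H V → W'.H V'}
    (h : IsPositiveAt W W' F E φ) : HasNoIsotropicClass W W' F E φ := by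
  obtain ⟨s, hs, hsE, h⟩ := h
  intro G hG hst hiso m a b hab hcy
  refine h m a b (fun i => ⟨hG (hab i).1, (hab i).2⟩) hcy ?_
  refine sum_eq_zero fun i _ => sum_eq_zero fun j _ => ?_
  rw [hiso _ (hab i).1 _ (hst s hs hsE _ (hab j).1), zero_mul]

end Pool.Agent.Helper11.BD
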