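import Mathlib
import Pool.Agent.Helper41.SD.FamSpec

/-!
# Algebraic correspondences and specialisations
-/

universe u v w u' w'

open CategoryTheory Finset

namespace Pool.Agent.Helper11.BD

open Pool.Agent.Helper10 hiding IsAlgAut parityPart
open SmProjVar Pool.Agent.Helper10.GIT
open Pool.Agent.Helper11.Obs (extProd wordClass prodVar prodFst prodProj)

variable {k : Type u} [Field k] {K : Type v} [Field K] [CharZero K]
  (W : WeilCohomology.{u, v, w} k K) {F : Subfield K}
  {k' : Type u'} [Field k'] (W' : WeilCohomology.{u', v, w'} k' K)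

/-- the class `x × y` on `pt × X × X` -/
lemma extProd_pair (X : SmProjVar k) (v : Fin 2 → W.H X) :
    (extProd W.toCohomologyData (A := pt k) (V := fun _ : Fin 2 => X) 1 v :
      W.H (prodVar (pt k) fun _ : Fin 2 => X)) =
    W.pullA (fst ((pt k).prod X) X) (W.pullA (snd (pt k) X) (v 0)) *
      W.pullA (snd ((pt k).prod X) X) (v 1) := by
  rw [Can.extProd_succ, Can.extProd_succ]
  have h0 : (extProd W.toCohomologyData (A := pt k) (V := fun _ : Fin 0 => X) 1
      (fun i => v i.castSucc.castSucc) : W.H (pt k)) = 1 := by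
    change W.pullA (𝟙 (pt k).toOver) 1 * (1 : W.H (pt k)) = 1
    rw [map_one, mul_one]
  have h1 : W.pullA (fst ((pt k).prod X) X) (W.pullA (fst (pt k) X)
      (extProd W.toCohomologyData (A := pt k) (V := fun _ : Fin 0 => X) 1
      (fun i => v i.castSucc.castSucc) : W.H (pt k)) * W.pullA (snd (pt k) X) (v 0)) *
      W.pullA (snd ((pt k).prod X) X) (v 1) =
      W.pullA (fst ((pt k).prod X) X) (W.pullA (snd (pt k) X) (v 0)) *
      W.pullA (snd ((pt k).prod X) X) (v 1) := by
    rw [h0]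
    have h2 : W.pullA (fst (pt k) X) (1 : W.H (pt k)) = 1 := map_one _
    have h3 : W.pullA (fst (pt k) X) (1 : W.H (pt k)) * W.pullA (snd (pt k) X) (v 0) =
        W.pullA (snd (pt k) X) (v 0) := by rw [h2, one_mul]
    exact congrArg (fun t => W.pullA (fst ((pt k).prod X) X) t *
      W.pullA (snd ((pt k).prod X) X) (v 1)) h3
  exact h1

theorem AreSpecializations.exists_map {W : WeilCohomology.{u, v, w} k K}
    {W' : WeilCohomology.{u', v, w'} k' K} {P : ℕ} {V : Fin P → SmProjVar k}
    {V' : Fin P → SmProjVar k'} {φ : ∀ c, W.H (V c) → W'.H (V' c)}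
    (hφ : AreSpecializations W.toCohomologyData W'.toCohomologyData V V' φ) (c : Fin P)
    {u : W.H (V c) → W.H (V c)} (hu : IsMapOver W.toCohomologyData F (V c) u) :
    ∃ u' : W'.H (V' c) → W'.H (V' c), IsMapOver W'.toCohomologyData F (V' c) u' ∧
      ∀ x, u' (φ c x) = φ c (u x) := by
  obtain ⟨γ, hγ, h⟩ := IsMapOver.trL_eq W hu
  -- the class on `pt × V × V`
  obtain ⟨z, hz, h1⟩ := push_mem_cycleSpan (F := F) W
    (lift (lift (toPt k ((V c).prod (V c))) (fst (V c) (V c))) (snd (V c) (V c)) :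
      ((V c).prod (V c)).toOver ⟶ (((pt k).prod (V c)).prod (V c)).toOver) hγ
  obtain ⟨z', hz', h2⟩ := hφ.exists_spec (b := 2) (fun _ => c) hz
  obtain ⟨γ', hγ', h3⟩ := push_mem_cycleSpan (F := F) W'
    (lift (fst ((pt k').prod (V' c)) (V' c) ≫ snd (pt k') (V' c))
      (snd ((pt k').prod (V' c)) (V' c)) :
      (((pt k').prod (V' c)).prod (V' c)).toOver ⟶ ((V' c).prod (V' c)).toOver) hz'
  obtain ⟨u', hu', h4⟩ := exists_mapOver W' hγ'
  refine ⟨u', hu', fun x => ?_⟩
  rw [← sub_eq_zero]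
  refine (W'.trace (V' c)).nondegenerate _ fun y' => ?_
  obtain ⟨y, rfl⟩ := hφ.bijective c |>.2 y'
  change W'.trL (V' c) ((u' (φ c x) - φ c (u x)) * φ c y) = 0
  rw [sub_mul, map_sub, h4, h3, ← hφ.map_mul, hφ.trL_eq, h]
  have h5 := h2 ![x, y]
  rw [extProd_pair W] at h5
  rw [extProd_pair W'] at h5
  have h6 := h1 (W.pullA (fst ((pt k).prod (V c)) (V c)) (W.pullA (snd (pt k) (V c)) x) *
      W.pullA (snd ((pt k).prod (V c)) (V c)) y)
  have h7 := h5.trans h6
  have h8 : W'.pullA (lift (fst ((pt k').prod (V' c)) (V' c) ≫ snd (pt k') (V' c))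
      (snd ((pt k').prod (V' c)) (V' c)))
        (W'.pull (fst (V' c) (V' c)) (φ c x) * W'.pull (snd (V' c) (V' c)) (φ c y)) =
      W'.pullA (fst ((pt k').prod (V' c)) (V' c)) (W'.pullA (snd (pt k') (V' c)) (φ c x)) *
        W'.pullA (snd ((pt k').prod (V' c)) (V' c)) (φ c y) := by
    rw [_root_.map_mul (W'.pullA _)]
    congr 1
    · have e1 := W'.pull_comp (lift (fst ((pt k').prod (V' c)) (V' c) ≫ snd (pt k') (V' c))
        (snd ((pt k').prod (V' c)) (V' c))) (fst (V' c) (V' c)) (φ c x)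
      rw [lift_fst] at e1
      have e2 := W'.pull_comp (fst ((pt k').prod (V' c)) (V' c)) (snd (pt k') (V' c)) (φ c x)
      exact e1.symm.trans e2
    · have e1 := W'.pull_comp (lift (fst ((pt k').prod (V' c)) (V' c) ≫ snd (pt k') (V' c))
        (snd ((pt k').prod (V' c)) (V' c))) (snd (V' c) (V' c)) (φ c y)
      rw [lift_snd] at e1
      exact e1.symm
  have h9 : W.pullA (lift (lift (toPt k ((V c).prod (V c))) (fst (V c) (V c)))
      (snd (V c) (V c)))
        (W.pullA (fst ((pt k).prod (V c)) (V c)) (W.pullA (snd (pt k) (V c)) x) *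
        W.pullA (snd ((pt k).prod (V c)) (V c)) y) =
      W.pull (fst (V c) (V c)) x * W.pull (snd (V c) (V c)) y := by
    rw [_root_.map_mul (W.pullA _)]
    congr 1
    · have e1 := W.pull_comp (lift (lift (toPt k ((V c).prod (V c))) (fst (V c) (V c)))
        (snd (V c) (V c))) (fst ((pt k).prod (V c)) (V c)) (W.pullA (snd (pt k) (V c)) x)
      rw [lift_fst] at e1
      have e2 := W.pull_comp (lift (toPt k ((V c).prod (V c))) (fst (V c) (V c)))
        (snd (pt k) (V c)) x
      rw [lift_snd] at e2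
      exact e1.symm.trans e2.symm
    · have e1 := W.pull_comp (lift (lift (toPt k ((V c).prod (V c))) (fst (V c) (V c)))
        (snd (V c) (V c))) (snd ((pt k).prod (V c)) (V c)) y
      rw [lift_snd] at e1
      exact e1.symm
  rw [h9] at h7
  rw [h8, sub_eq_zero]
  exact h7

end Pool.Agent.Helper11.BD
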