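import Mathlib
import Pool.Agent.Helper11.GP.Types
import Pool.Agent.Helper11.GN.L4

/-!
# Words in smaller families of subspaces
-/

universe u v w

open CategoryTheory Finset

namespace Pool.Agent.Helper11.BD

open Pool.Agent.Helper10 hiding IsAlgAut parityPart
open SmProjVar Pool.Agent.Helper10.GIT
open Pool.Agent.Helper11.Obs (extProd wordClass prodVar prodFst prodProj parityPart)

variable {k : Type u} [Field k] {K : Type v} [Field K] [CharZero K]
  (W : WeilCohomology.{u, v, w} k K)

/-- algebraic maps are linear -/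
lemma exists_linear_alg {A B : SmProjVar k} {u : W.H A → W.H B} (hu : W.IsAlgebraicMap A B u) :
    ∃ L : W.H A →ₗ[K] W.H B, ∀ x, L x = u x := by
  obtain ⟨c, hc, h⟩ := hu
  have hadd : ∀ x y, u (x + y) = u x + u y := by
    intro x y
    rw [← sub_eq_zero]
    refine (W.trace B).nondegenerate _ fun z => ?_
    have h1 : ∀ x, W.trL B (u x * z) = W.trL (A.prod B) (W.pull (fst A B) x * c *
      W.pull (snd A B) z) := fun x => h x z
    change W.trL B ((u (x + y) - (u x + u y)) * z) = 0
    have h2 : W.pull (fst A B) (x + y) = W.pull (fst A B) x + W.pull (fst A B) y :=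
      map_add (W.pullA (fst A B)) x y
    rw [sub_mul, add_mul, map_sub, map_add, h1, h1, h1, h2, add_mul, add_mul, map_add, sub_self]
  have hsmul : ∀ (a : K) x, u (a • x) = a • u x := by
    intro a x
    rw [← sub_eq_zero]
    refine (W.trace B).nondegenerate _ fun z => ?_
    have h1 : ∀ x, W.trL B (u x * z) = W.trL (A.prod B) (W.pull (fst A B) x * c *
      W.pull (snd A B) z) := fun x => h x z
    change W.trL B ((u (a • x) - a • u x) * z) = 0
    have h2 : W.pull (fst A B) (a • x) = a • W.pull (fst A B) x :=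
      map_smul (W.pullA (fst A B)) a x
    rw [sub_mul, smul_mul_assoc, map_sub, map_smul, h1, h1, h2, smul_mul_assoc, smul_mul_assoc,
      map_smul, sub_self]
  exact ⟨{ toFun := u, map_add' := hadd, map_smul' := hsmul }, fun x => rfl⟩

/-- words as products of lists of letters -/
lemma isWordIn_iff {P : ℕ} {V : Fin P → SmProjVar k} {E : ∀ c, Submodule K (W.H (V c))}
    {T : SmProjVar k} {y : W.H T} :
    Ro.IsWordIn W.toCohomologyData V E T y ↔ ∃ l : List (W.H T), (∀ a ∈ l, ∃ (c : Fin P)
      (f : T.toOver ⟶ (V c).toOver) (v : W.H (V c)), v ∈ E c ∧ a = W.pull f v) ∧ y = l.prod := by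
  constructor
  · rintro ⟨b, c, f, v, hv, rfl⟩
    refine ⟨_, fun a ha => ?_, rfl⟩
    rw [List.mem_ofFn] at ha
    obtain ⟨i, rfl⟩ := ha
    exact ⟨c i, f i, v i, hv i, rfl⟩
  · rintro ⟨l, hl, rfl⟩
    choose c f v hv h using fun i : Fin l.length => hl (l.get i) (l.get_mem i)
    refine ⟨l.length, c, f, v, hv, ?_⟩
    have h1 : List.ofFn (fun i => W.pull (f i) (v i)) = l := by
      conv_rhs => rw [← List.ofFn_get l]
      congr 1
      funext i
      exact (h i).symm
    rw [h1]

/-- the product of a sum of letters and a sum of words -/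
lemma mul_mem_words {P : ℕ} {U : Fin P → SmProjVar k} {D : ∀ j, Submodule K (W.H (U j))}
    {T : SmProjVar k} {x w : W.H T}
    (hx : x ∈ Submodule.span K {a | ∃ (j : Fin P) (g : T.toOver ⟶ (U j).toOver)
        (y : W.H (U j)), y ∈ D j ∧ a = W.pull g y})
    (hw : w ∈ Submodule.span K {y | Ro.IsWordIn W.toCohomologyData U D T y}) :
    x * w ∈ Submodule.span K {y | Ro.IsWordIn W.toCohomologyData U D T y} := by
  induction hx using Submodule.span_induction with
  | mem a ha =>
    obtain ⟨j, g, y, hy, rfl⟩ := ha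
    induction hw using Submodule.span_induction with
    | mem w hw =>
      refine Submodule.subset_span ?_
      obtain ⟨l', hl', rfl⟩ := (isWordIn_iff W).mp hw
      refine (isWordIn_iff W).mpr ⟨W.pull g y :: l', fun a ha => ?_, List.prod_cons.symm⟩
      rcases List.mem_cons.mp ha with rfl | ha
      · exact ⟨j, g, y, hy, rfl⟩
      · exact hl' a ha
    | zero => rw [mul_zero]; exact Submodule.zero_mem _
    | add a b _ _ ha hb => rw [mul_add]; exact Submodule.add_mem _ ha hb
    | smul r a _ ha => rw [mul_smul_comm]; exact Submodule.smul_mem _ r ha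
  | zero => rw [zero_mul]; exact Submodule.zero_mem _
  | add a b _ _ ha hb => rw [add_mul]; exact Submodule.add_mem _ ha hb
  | smul r a _ ha => rw [smul_mul_assoc]; exact Submodule.smul_mem _ r ha

/-- if the elements of the `E c` are sums of elements of the `D j`, words in the `E c` are sums of
words in the `D j` -/
theorem isSpanned_mono {P P' : ℕ} {V : Fin P → SmProjVar k} {E : ∀ c, Submodule K (W.H (V c))}
    {U : Fin P' → SmProjVar k} {D : ∀ j, Submodule K (W.H (U j))}
    (h : ∀ c, ∀ x ∈ E c, ∀ {T : SmProjVar k} (f : T.toOver ⟶ (V c).toOver),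
      W.pull f x ∈ Submodule.span K {a | ∃ (j : Fin P') (g : T.toOver ⟶ (U j).toOver)
        (y : W.H (U j)), y ∈ D j ∧ a = W.pull g y})
    {Y : SmProjVar k} (hY : Ro.IsSpanned W.toCohomologyData V E Y) :
    Ro.IsSpanned W.toCohomologyData U D Y := by
  unfold Ro.IsSpanned at hY ⊢
  rw [eq_top_iff, ← hY, Submodule.span_le]
  rintro _ ⟨T, u, x, hu, hx, rfl⟩
  obtain ⟨L, hL⟩ := exists_linear_alg W hu
  obtain ⟨l, hl, rfl⟩ := (isWordIn_iff W).mp hx
  have key : l.prod ∈ Submodule.span K {y | Ro.IsWordIn W.toCohomologyData U D T y} := by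
    clear hx
    induction l with
    | nil =>
      refine Submodule.subset_span ?_
      exact (isWordIn_iff W).mpr ⟨[], fun a ha => absurd ha List.not_mem_nil, rfl⟩
    | cons a l ih =>
      obtain ⟨c, f, v, hv, rfl⟩ := hl _ List.mem_cons_self
      have h1 := ih fun a ha => hl a (List.mem_cons_of_mem _ ha)
      rw [List.prod_cons]
      exact mul_mem_words W (h c v hv f) h1
  rw [← hL]
  have h3 : L l.prod ∈ (Submodule.span K {y | Ro.IsWordIn W.toCohomologyData U D T y}).map L :=
    Submodule.mem_map_of_mem key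
  rw [Submodule.map_span] at h3
  refine Submodule.span_mono ?_ h3
  rintro _ ⟨w, hw, rfl⟩
  exact ⟨T, u, w, hu, hw, hL w⟩

/-- the products of the `V c` are spanned by words in the `H(V c)` -/
theorem isSpanned_cart_of_top {P : ℕ} {V : Fin P → SmProjVar k}
    {E : ∀ c, Submodule K (W.H (V c))} {c : Fin P} (hE : E c = ⊤) (b : ℕ) :
    Ro.IsSpanned W.toCohomologyData V E (cart (V c) b) := by
  unfold Ro.IsSpanned
  rw [eq_top_iff]
  intro z _
  have hz : z ∈ Submodule.span K (Set.range fun v : Fin b → W.H (V c) =>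
      (extProd W.toCohomologyData (A := pt k) 1 v : W.H (cart (V c) b))) := by
    rw [span_extProd]; trivial
  refine Submodule.span_mono ?_ hz
  rintro _ ⟨v, rfl⟩
  refine ⟨cart (V c) b, fun x => x, _, Zt.isAlgebraicMap_id' W _, ⟨b, fun _ => c,
    fun i => prodProj (pt k) (fun _ => V c) i, v, fun i => by rw [hE]; trivial, rfl⟩, ?_⟩
  change W.pullA (prodFst (pt k) fun _ : Fin b => V c) 1 * _ = _
  rw [map_one, one_mul]

end Pool.Agent.Helper11.BD
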