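import Mathlib
import Pool.Agent.Helper11.GP.Types
import Pool.Agent.Helper11.GN.L4
import Pool.Agent.Helper41.SD.FamOps

/-!
# No rational classes with a slot in an isotropic subspace of the even or the odd part
-/

universe u v w u' w'

open CategoryTheory Finset

namespace Pool.Agent.Helper11.BD

open Pool.Agent.Helper10 hiding IsAlgAut parityPart
open SmProjVar Pool.Agent.Helper10.GIT
open Pool.Agent.Helper11.Obs (extProd wordClass prodVar prodFst prodProj IsNumTrivial parityPart
  power wordVar AreRelatedFlags IsTotallyIsotropic)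

variable {k : Type u} [Field k] {K : Type v} [Field K] [CharZero K]
  (W : WeilCohomology.{u, v, w} k K) {F : Subfield K}
  {k' : Type u'} [Field k'] (W' : WeilCohomology.{u', v, w'} k' K)

/-- the case of one degree `i ≤ dim X` of the first slot -/
lemma eq_zero_of_good_slot {X : SmProjVar k} {X' : SmProjVar k'}
    {d : X.Z 1} {d' : X'.Z 1} {φ : W.H X → W'.H X'}
    (hφ : IsSpecialization W.toCohomologyData W'.toCohomologyData X d X' d' φ)
    (hd : HardLefschetz W.toCohomologyData X d)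
    (hB : LefschetzStandard W.toCohomologyData (ratField K) X d)
    (hB' : LefschetzStandard W'.toCohomologyData (ratField K) X' d') {e : (X'.prod X').Z 1}
    (he : W'.cy (X'.prod X') 1 e =
      W'.pull (fst X' X') (W'.cy X' 1 d') + W'.pull (snd X' X') (W'.cy X' 1 d'))
    (hH : W'.HodgeType (X'.prod X') e) {p : ℕ} {G : Submodule K (W.H X)} (hG : IsGood W X p G)
    {i r : ℕ} (hir : i + r = X.dim) {γ : W'.H (X'.prod X')}
    (hγ : γ ∈ cycleSpan W'.toCohomologyData (ratField K) (X'.prod X'))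
    (hγG : γ ∈ Submodule.span K {t | ∃ g ∈ G ⊓ W.gr X i, ∃ x,
      t = W'.pull (fst X' X') (φ g) * W'.pull (snd X' X') x}) : γ = 0 := by
  obtain ⟨π, hπ⟩ := exists_projs W (exists_proj_of_standard W hB)
  refine eq_zero_of_isotropic_slot W' (hφ.hardLefschetz hd) hB' he hH (i := i) (r := r)
    (by rw [hφ.dim_eq]; exact hir) (G := (G ⊓ W.gr X i).map hφ.lin) ?_ ?_ ?_ hγ ?_
  · rintro _ ⟨g, hg, rfl⟩
    exact hφ.map_mem i g hg.2
  · rintro _ ⟨x, hx, rfl⟩ _ ⟨y, hy, rfl⟩
    have h1 : W'.pairing X' (φ x) (W'.lef X' d' r (φ y)) = 0 := by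
      rw [← hφ.map_lef, hφ.pairing_eq]
      exact hG.isotropic_lef d r hx.1 hy.1
    exact h1
  · rintro _ ⟨x, hx, rfl⟩
    obtain ⟨y, hy, hy'⟩ := hG.lefDec hπ hd hB hir hx
    refine ⟨fun j => φ (y j), ⟨fun j hj => hφ.map_mem _ _ (hy.mem j hj), fun j hj => ?_,
      fun j => ?_, ?_⟩, fun j => ⟨_, hy' j, hφ.map_lef j (y j)⟩⟩
    · have h1 := hy.zero j hj
      rw [h1, hφ.map_zero']
    · rw [← hφ.map_lef, hy.prim j, hφ.map_zero']
    · change φ x = _
      conv_lhs => rw [hy.sum]
      rw [hφ.map_sum']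
      exact sum_congr rfl fun j _ => hφ.map_lef j (y j)
  · refine Submodule.span_mono ?_ hγG
    rintro _ ⟨g, hg, x, rfl⟩
    exact ⟨φ g, ⟨g, hg, rfl⟩, x, rfl⟩

/-- T2 (helper49): the even and the odd part -/
theorem hasNoIsotropicClass_parityPart {X : SmProjVar k} {X' : SmProjVar k'}
    {d : X.Z 1} {d' : X'.Z 1} {φ : W.H X → W'.H X'}
    (hφ : IsSpecialization W.toCohomologyData W'.toCohomologyData X d X' d' φ)
    (hd : HardLefschetz W.toCohomologyData X d)
    (hB : LefschetzStandard W.toCohomologyData (ratField K) X d)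
    (hB' : LefschetzStandard W'.toCohomologyData (ratField K) X' d') {e : (X'.prod X').Z 1}
    (he : W'.cy (X'.prod X') 1 e =
      W'.pull (fst X' X') (W'.cy X' 1 d') + W'.pull (snd X' X') (W'.cy X' 1 d'))
    (hH : W'.HodgeType (X'.prod X') e) (p : ℕ) :
    HasNoIsotropicClass W.toCohomologyData W'.toCohomologyData (ratField K)
      (parityPart W.toCohomologyData X p) φ := by
  intro G hG hst hiso m a b hab hγ
  have hgood : IsGood W X p G := ⟨hG, hiso, hst⟩
  obtain ⟨π, hπ⟩ := exists_projs W (exists_proj_of_standard W hB)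
  choose π' hπ'1 hπ'2 hπ'3 using fun s => exists_proj_of_standard W' hB' (s : ℕ)
  choose T hT1 hT2 using fun s => exists_prod_map W' (hπ'1 s)
    (Ro.isMapOver_id W' (F := ratField K) X')
  have hπφ : ∀ (s : Fin (2 * X.dim + 1)) (x : W.H X), π' s (φ x) = φ (π s x) := by
    intro s x
    obtain ⟨P, hP⟩ := Ro.IsMapOver.exists_linear W' (hπ'1 s)
    conv_lhs => rw [← hπ.sum x, hφ.map_sum', ← hP, map_sum]
    rw [sum_eq_single s]
    · rw [hP]
      exact hπ'2 s _ (hφ.map_mem _ _ (hπ.mem s x))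
    · intro t _ hts
      rw [hP]
      exact hπ'3 s t (fun h => hts (Fin.ext h)) _ (hφ.map_mem _ _ (hπ.mem t x))
    · intro h
      exact absurd (mem_univ _) h
  set γ : W'.H (X'.prod X') := ∑ i, W'.pull (fst X' X') (φ (a i)) *
    W'.pull (snd X' X') (φ (b i)) with hγdef
  have hTγ : ∀ s : Fin (2 * X.dim + 1), T s γ = ∑ i, W'.pull (fst X' X') (φ (π s (a i))) *
      W'.pull (snd X' X') (φ (b i)) := by
    intro s
    rw [hγdef, map_sum]
    refine sum_congr rfl fun i _ => ?_
    rw [hT2, hπφ]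
  have hzero : ∀ s : Fin (2 * X.dim + 1), T s γ = 0 := by
    intro s
    have hs := s.2
    by_cases hsn : (s : ℕ) ≤ X.dim
    · refine eq_zero_of_good_slot W W' hφ hd hB hB' he hH hgood (i := s) (r := X.dim - s)
        (by omega) (hT1 s γ hγ) ?_
      rw [hTγ]
      exact Submodule.sum_mem _ fun i _ => Submodule.subset_span
        ⟨_, ⟨hgood.proj_mem hπ s (hab i).1, hπ.mem s _⟩, _, rfl⟩
    · obtain ⟨u, hu, hu1⟩ := hB (2 * X.dim - s) (s - X.dim) (by omega)
      obtain ⟨u', hu', hu1'⟩ := hB' (2 * X.dim - s) (s - X.dim) (by rw [hφ.dim_eq]; omega)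
      obtain ⟨U, hU1, hU2⟩ := exists_prod_map W' hu' (Ro.isMapOver_id W' (F := ratField K) X')
      have hlt : 2 * X.dim - (s : ℕ) < 2 * X.dim + 1 := by omega
      have hinv : ∀ x ∈ W.gr X s, u x ∈ W.gr X (2 * X.dim - s) ∧
          W.lef X d (s - X.dim) (u x) = x := by
        intro x hx
        obtain ⟨y, hy, rfl⟩ := (hd (2 * X.dim - s) (s - X.dim) (by omega)).2 x (by
          rwa [show 2 * X.dim - (s : ℕ) + 2 * (s - X.dim) = s by omega])
        rw [hu1 y hy]
        exact ⟨hy, rfl⟩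
      have hinv' : ∀ x ∈ W.gr X s, u' (φ x) = φ (u x) := by
        intro x hx
        obtain ⟨h1, h2⟩ := hinv x hx
        conv_lhs => rw [← h2, hφ.map_lef]
        exact hu1' _ (hφ.map_mem _ _ h1)
      have hUT : U (T s γ) = ∑ i, W'.pull (fst X' X') (φ (u (π s (a i)))) *
          W'.pull (snd X' X') (φ (b i)) := by
        rw [hTγ, map_sum]
        refine sum_congr rfl fun i _ => ?_
        rw [hU2, hinv' _ (hπ.mem s _)]
      have h1 : U (T s γ) = 0 := by
        refine eq_zero_of_good_slot W W' hφ hd hB hB' he hH hgood (i := 2 * X.dim - s)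
          (r := s - X.dim) (by omega) (hU1 _ (hT1 s γ hγ)) ?_
        rw [hUT]
        refine Submodule.sum_mem _ fun i _ => Submodule.subset_span
          ⟨_, ⟨?_, (hinv _ (hπ.mem s _)).1⟩, _, rfl⟩
        refine hgood.corr_gr hπ (Ro.IsMapOver.isAlgebraicMap W hu) (s := s)
          (t := ⟨2 * X.dim - s, hlt⟩) ?_ (fun x hx => (hinv x hx).1) (hab i).1
        change Even ((s : ℕ) + (2 * X.dim - s))
        rw [Nat.even_iff]
        omega
      have h2 : T s γ = W'.pull (fst X' X') (W'.cy X' 1 d') ^ ((s : ℕ) - X.dim) *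
          U (T s γ) := by
        rw [hUT, hTγ, mul_sum]
        refine sum_congr rfl fun i _ => ?_
        rw [← mul_assoc, ← pull_lef, ← hφ.map_lef, (hinv _ (hπ.mem s _)).2]
      rw [h2, h1, mul_zero]
  have hsum : γ = ∑ s : Fin (2 * X.dim + 1), T s γ := by
    rw [sum_congr rfl fun s _ => hTγ s, sum_comm, hγdef]
    refine sum_congr rfl fun i _ => ?_
    rw [← sum_mul, ← pull_sum', ← hφ.map_sum', hπ.sum]
  rw [hsum]
  exact sum_eq_zero fun s _ => hzero s

end Pool.Agent.Helper11.BD
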