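import Mathlib
import Pool.Agent.Helper11.GP.Span
import Pool.Agent.Helper11.GP.T2
import Pool.Agent.Helper41.SD.FamM

/-!
# The standard conjecture D and specialisations: pieces and varieties
-/

universe u v w u' w'

open CategoryTheory Finset

namespace Pool.Agent.Helper11.BD

open Pool.Agent.Helper10 hiding IsAlgAut parityPart
open SmProjVar Pool.Agent.Helper10.GIT
open Pool.Agent.Helper11.Obs (extProd wordClass prodVar prodFst prodProj parityPart)

variable {k : Type u} [Field k] {K : Type v} [Field K] [CharZero K]
  (W : WeilCohomology.{u, v, w} k K) {F : Subfield K}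
  {k' : Type u'} [Field k'] (W' : WeilCohomology.{u', v, w'} k' K)

/-- **D and specialisations.** -/
theorem standardD_iff_of_pieces {P : ℕ} {V : Fin P → SmProjVar k}
    {V' : Fin P → SmProjVar k'} {φ : ∀ c, W.H (V c) → W'.H (V' c)}
    (hφ : AreSpecializations W.toCohomologyData W'.toCohomologyData V V' φ)
    (hD : ∀ (b : ℕ) (c : Fin b → Fin P), W'.StandardD (prodVar (pt k') fun i => V' (c i)))
    {E : ∀ c, Submodule K (W.H (V c))} {d : ∀ c, (V c).Z 1}
    (h : ∀ c, (E c = ⊤ ∧ IsPolarizedAt W.toCohomologyData W'.toCohomologyData (d c) (φ c)) ∨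
      (Ro.IsPieceOver W.toCohomologyData (ratField K) (V c) (E c) ∧
        IsPositiveAt W.toCohomologyData W'.toCohomologyData (ratField K) (E c) (φ c))) :
    (∀ Y, Ro.IsSpanned W.toCohomologyData V E Y → W.StandardD Y) ↔
      ∀ c, E c = ⊤ → IsPolarizedAt W.toCohomologyData W'.toCohomologyData (d c) (φ c) →
        LefschetzStandard W.toCohomologyData F (V c) (d c) := by
  classical
  constructor
  · intro hY c hc hp
    exact lefschetzStandard_of_standardD W hp.1 fun b => hY _ (isSpanned_cart_of_top W hc b)
  · intro hB Y hY
    -- the kind of a member of the family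
    let I : Fin P → Prop := fun c =>
      E c = ⊤ ∧ IsPolarizedAt W.toCohomologyData W'.toCohomologyData (d c) (φ c)
    let E₂ : ∀ q : Fin (P * 2), Submodule K (W.H (V q.divNat)) := fun q =>
      if I q.divNat then parityPart W.toCohomologyData (V q.divNat) (q.modNat : ℕ) else E q.divNat
    have hφ₂ : AreSpecializations W.toCohomologyData W'.toCohomologyData
        (fun q : Fin (P * 2) => V q.divNat) (fun q => V' q.divNat) fun q => φ q.divNat :=
      { dim_eq := fun q => hφ.dim_eq q.divNat
        bijective := fun q => hφ.bijective q.divNat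
        map_add := fun q => hφ.map_add q.divNat
        map_smul := fun q => hφ.map_smul q.divNat
        map_one := fun q => hφ.map_one q.divNat
        map_mul := fun q => hφ.map_mul q.divNat
        map_mem := fun q => hφ.map_mem q.divNat
        tr := fun q => hφ.tr q.divNat
        cycle := fun b j c z => hφ.cycle b j (fun i => (c i).divNat) z }
    refine standardD_of_areSpecializations (F := ratField K) W W' hφ₂ (E := E₂) (fun q => ?_)
      (fun q => ?_) (fun b c => hD b fun i => (c i).divNat) (isSpanned_mono W ?_ hY)
    · by_cases hI : I q.divNat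
      · have hE₂ : E₂ q = parityPart W.toCohomologyData (V q.divNat) (q.modNat : ℕ) := if_pos hI
        rw [hE₂]
        have hB0 : LefschetzStandard W.toCohomologyData (ratField K) (V q.divNat) (d q.divNat) :=
          (lefschetzStandard_iff W hI.2.1 (ratField_le F)).mpr (hB _ hI.1 hI.2)
        obtain ⟨π, hπ⟩ := exists_projs W (exists_proj_of_standard W hB0)
        exact hπ.isPieceOver W (q.modNat : ℕ)
      · have hE₂ : E₂ q = E q.divNat := if_neg hI
        rw [hE₂]
        exact ((h q.divNat).resolve_left hI).1
    · by_cases hI : I q.divNat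
      · have hE₂ : E₂ q = parityPart W.toCohomologyData (V q.divNat) (q.modNat : ℕ) := if_pos hI
        rw [hE₂]
        have hB0 : LefschetzStandard W.toCohomologyData (ratField K) (V q.divNat) (d q.divNat) :=
          (lefschetzStandard_iff W hI.2.1 (ratField_le F)).mpr (hB _ hI.1 hI.2)
        obtain ⟨hd, d', e, hdiv, he, hH⟩ := hI.2
        have hc := hφ.single hdiv
        exact hasNoIsotropicClass_parityPart W W' hc hd hB0
          (lefschetzStandard_of_standardD W' (hc.hardLefschetz hd) fun b =>
            hD b fun _ => q.divNat) he hH _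
      · have hE₂ : E₂ q = E q.divNat := if_neg hI
        rw [hE₂]
        exact hasNoIsotropicClass_of_isPositiveAt _ _ ((h q.divNat).resolve_left hI).2
    · intro c x hx T f
      have hq : ∀ m : Fin 2, ∃ q : Fin (P * 2), q.divNat = c ∧ q.modNat = m := fun m =>
        ⟨finProdFinEquiv (c, m),
          congrArg Prod.fst (finProdFinEquiv.symm_apply_apply (c, m)),
          congrArg Prod.snd (finProdFinEquiv.symm_apply_apply (c, m))⟩
      by_cases hI : I c
      · refine W.gr_induction (V c) (p := fun x => W.pull f x ∈ Submodule.span K _)
          (fun s x hx => ?_) ?_ (fun a b ha hb => ?_) x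
        · obtain ⟨q, rfl, hm⟩ := hq (if Even s then 0 else 1)
          refine Submodule.subset_span ⟨q, f, x, ?_, rfl⟩
          have hE₂ : E₂ q = parityPart W.toCohomologyData (V q.divNat) (q.modNat : ℕ) := if_pos hI
          rw [hE₂]
          refine gr_le_parityPart W ?_ hx
          rw [hm]
          by_cases hs : Even s
          · rw [if_pos hs]
            simpa using hs
          · rw [if_neg hs]
            rw [Nat.not_even_iff_odd] at hs
            exact hs.add_one
        · have h0 : W.pull f 0 = 0 := map_zero (W.pullA f)
          rw [h0]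
          exact Submodule.zero_mem _
        · have h0 : W.pull f (a + b) = W.pull f a + W.pull f b := map_add (W.pullA f) a b
          rw [h0]
          exact Submodule.add_mem _ ha hb
      · obtain ⟨q, rfl, -⟩ := hq 0
        refine Submodule.subset_span ⟨q, f, x, ?_, rfl⟩
        have hE₂ : E₂ q = E q.divNat := if_neg hI
        rw [hE₂]
        exact hx

end Pool.Agent.Helper11.BD
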